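import Pool.Agent.TH222.RG.Chk

set_option autoImplicit false

/-! The 10 boundary types. -/

namespace Pool.Agent.TH222.RG.R2

def T0 : BT := ⟨0, false, 1, 0x0, []⟩
def T1 : BT := ⟨2, true, 1, 0x3210, []⟩
def T2 : BT := ⟨4, false, 3, 0x3210103200000000321031200000000032103210, [(3, true, 0)]⟩
def T3 : BT := ⟨2, false, 1, 0x3232, []⟩
def T4 : BT := ⟨6, true, 12, 0x32101032103200003210103231200000321010323210000032103120103200003210312020310000321031203021000032103210103200003210312021300000321031203120000032103120321000003210321031200000321032103210, [(3, true, 0), (12, true, 0), (15, false, 0)]⟩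
def T5 : BT := ⟨4, true, 3, 0x3210323200000000323120320000000032321032, [(6, true, 0)]⟩
def T6 : BT := ⟨6, false, 12, 0x32103210323200003210323120320000321032321032000032312010323200003231202031320000323120302132000032321010323200003231202130320000323120312032000032312032103200003232103120320000323210321032, [(6, true, 0), (24, true, 0), (30, false, 0)]⟩
def T7 : BT := ⟨4, false, 3, 0x3210321000000000323132310000000032323232, [(5, false, 0)]⟩
def T8 : BT := ⟨6, true, 12, 0x32101032321000003210312032100000321032103210000032311032323100003231203132310000323130213231000032321032323200003231213032310000323131203231000032313210323100003232312032320000323232103232, [(12, true, 0), (17, false, 0), (29, true, 0)]⟩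
def T9 : BT := ⟨6, false, 12, 0x32101032101000003210313210310000321032321032000032311032311000003231203231200000323130323130000032321032321000003231213231210000323131323131000032313232313200003232313232310000323232323232, [(9, false, 0), (18, false, 0), (27, false, 0)]⟩
def B0 : List BT := [T0, T1, T2, T3, T4, T5, T6, T7, T8, T9]
def BB : List (List BT) := [B0]

/-- the type with number i -/
def tbl (i : ℕ) : BT := (BB.getD (Nat.div i 16) []).getD (Nat.mod i 16) T0

end Pool.Agent.TH222.RG.R2
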